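import Pool.Agent.W617.LG.StmI

set_option autoImplicit false

open Topology Filter Set
open scoped ContDiff InnerProductSpace
open Pool.Agent.W617.LG

namespace Pool.Agent.W882.LG.Smn

theorem aux {V : Type*} [NormedAddCommGroup V] [NormedSpace ℝ V] (U : Set V) (m : ℕ)
    (N : V → V →L[ℝ] V) (M : V → V →L[ℝ] V →L[ℝ] V) (κ : ℝ)
    (hN : ContDiffOn ℝ m N U) (hM : ContDiffOn ℝ m M U) :
    ContDiffOn ℝ m (fun y => κ • ((ContinuousLinearMap.compL ℝ V V V (N y)).comp (M y))) U := by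
  have h1 : ContDiffOn ℝ m (fun y => ContinuousLinearMap.compL ℝ V V V (N y)) U :=
    ContDiff.comp_contDiffOn (ContinuousLinearMap.contDiff (ContinuousLinearMap.compL ℝ V V V)) hN
  have h2 : ContDiffOn ℝ m (fun y => (ContinuousLinearMap.compL ℝ V V V (N y)).comp (M y)) U :=
    ContDiffOn.clm_comp h1 hM
  exact h2.const_smul κ

theorem aux2 {V : Type*} [NormedAddCommGroup V] [NormedSpace ℝ V] (U : Set V) (hU : IsOpen U)
    (N : V → V →L[ℝ] V) (M : V → V →L[ℝ] V →L[ℝ] V) (κ : ℝ)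
    (hM : ∀ m : ℕ, ContDiffOn ℝ m M U)
    (hd : ∀ y ∈ U, HasFDerivAt N (κ • ((ContinuousLinearMap.compL ℝ V V V (N y)).comp (M y))) y) :
    ∀ m : ℕ, ContDiffOn ℝ m N U := by
  intro m
  induction m with
  | zero =>
    rw [Nat.cast_zero, contDiffOn_zero]
    exact fun x hx => (hd x hx).continuousAt.continuousWithinAt
  | succ m ih =>
    rw [Nat.cast_succ, contDiffOn_succ_iff_fderiv_of_isOpen hU]
    refine ⟨fun x hx => (hd x hx).differentiableAt.differentiableWithinAt, ?_, ?_⟩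
    · intro h
      exact absurd h (by simp)
    · exact (aux U m N M κ ih (hM m)).congr fun x hx => (hd x hx).fderiv

theorem smn : S_SMN := by
  intro q G M N hG hN κ y hy
  have hU : IsOpen {y : E q | y ≠ 0} := isOpen_ne
  have hMon : ∀ m : ℕ, ContDiffOn ℝ m M {y : E q | y ≠ 0} := fun m x hx =>
    ((hG.Msm x hx).of_le (by exact_mod_cast le_top)).contDiffWithinAt
  have key : ∀ m : ℕ, ContDiffOn ℝ m (N κ) {y : E q | y ≠ 0} :=
    aux2 {y : E q | y ≠ 0} hU (N κ) M κ hMon fun y hy => hN.der κ y hy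
  exact (contDiffOn_infty.2 key).contDiffAt (hU.mem_nhds hy)

end Pool.Agent.W882.LG.Smn
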